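import Pool.Agent.ABCP.Stmts
import Pool.Agent.Helper25_ABCP.TRC
import Pool.Agent.Helper32_ABCP.Idl
import Pool.Agent.Helper10_ABCP.TRK
import Pool.Agent.Helper17_ABCP.CPX
import Pool.Agent.Helper28_ABCP.SQR
import Pool.Agent.Helper82_ABCP.NIL
import Pool.Agent.Helper82_ABCP.EXT
import Pool.Agent.Helper69_ABCP.ANN
import Pool.Agent.Helper28_ABCP.QUO
import Pool.Agent.Helper86_ABCP.STR
import Pool.Agent.Helper77_ABCP.BZE
import Pool.Agent.Helper43_ABCP.INJ
import Pool.Agent.Helper43_ABCP.PEN
import Pool.Agent.Helper30_ABCP.STA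
import Pool.Agent.Helper94_ABCP.RK1
import Pool.Agent.Helper6_ABCP.LO1
import Pool.Agent.Helper1_ABCP.IND
import Pool.Agent.Helper25_ABCP.ATT
import Pool.Agent.Helper10_ABCP.PER
import Pool.Agent.Helper30_ABCP.GEN
import Pool.Agent.Helper85_ABCP.Dsc
import Pool.Agent.Helper69_ABCP.FOU
import Pool.Agent.Helper99_ABCP.ADD
import Pool.Agent.Helper56_ABC3.KRS

set_option autoImplicit false

/-!
# `3p - 4` bases in characteristic `p` contain an AT-basis

The main theorem of the squad ABCP (see `Pool/Agent/ABCP/Stmts.lean` for the proof in words).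
-/

namespace Pool.Agent.Helper95_ABCP.AllPrimes

open Matrix Pool.Agent.ABCP

theorem trc : TRCStmt := H25.trc
theorem idl : IDLStmt := H32.idl trc
theorem cpx : CPXStmt := H17.cpx idl
theorem ext : EXTStmt := H82.ext H28.sqr
theorem ann : ANNStmt := H69A.ann trc idl H28.sqr
theorem str : STRStmt := H86.str cpx (H10.trk trc) H28.quo trc Pool.Agent.ABC3.H56.krs
theorem inj : INJStmt := H43.inj H77.bze ext H82.nil
theorem sta : STAStmt := H30.sta H77.bze inj H43.pen
theorem lo1 : LO1Stmt := H6.lo1 H94.rk1 ann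
theorem ind : INDStmt := H1.ind str sta lo1 ann
theorem att : ATTStmt := H25.att ind cpx
theorem gen : GENStmt := H30.gen att H28.sqr H10.per
theorem dsc : DSCStmt := H85.dsc gen
theorem fou : FOUStmt := H69.fou dsc
theorem add : ADDStmt := H99.add

/-- For every prime `p`: (1) over any field of characteristic `p`, a finite family of columns such that
every proper subspace `U` misses at least `(3p-4) codim U - (2p-3)` of them contains `(p-1) n` columns
forming an AT-basis. (2) Among the columns of `3p-4` invertible matrices over `Z_p` there are `(p-1) n`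
distinct ones which form an AT-basis and an additive basis: every vector of `Z_p^n` is the sum of a
subset of them. -/
theorem result (p : ℕ) [Fact p.Prime] :
    (∀ (K : Type) [Field K] [CharP K p] (n : ℕ) (ι : Type) [Fintype ι] (Y : Matrix (Fin n) ι K),
      (∀ U : Submodule K (Fin n → K), U ≠ ⊤ →
        (3 * p - 4) * n ≤ Nat.card {c : ι // (fun r => Y r c) ∉ U} +
          (3 * p - 4) * Module.finrank K U + (2 * p - 3)) →
      ∃ f : Fin (p - 1) × Fin n → ι, Function.Injective f ∧
        Matrix.permanent (Matrix.of (fun (r c : Fin (p - 1) × Fin n) => Y r.2 (f c))) ≠ 0) ∧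
    (∀ (n : ℕ) (B : Fin (3 * p - 4) → Matrix (Fin n) (Fin n) (ZMod p)), (∀ j, IsUnit (B j)) →
      ∃ f : Fin (p - 1) × Fin n → Fin (3 * p - 4) × Fin n, Function.Injective f ∧
        Matrix.permanent (Matrix.of (fun (r c : Fin (p - 1) × Fin n) => B (f c).1 r.2 (f c).2)) ≠ 0 ∧
        ∀ y : Fin n → ZMod p, ∃ S : Finset (Fin (p - 1) × Fin n),
          ∀ r : Fin n, ∑ c ∈ S, B (f c).1 r (f c).2 = y r) := by
  refine ⟨?_, ?_⟩
  · intro K _ _ n ι _ Y hY
    classical
    exact dsc p K n ι Y hY
  · intro n B hB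
    obtain ⟨f, hf, hp⟩ := fou p (ZMod p) n B (fun j => ((Matrix.isUnit_iff_isUnit_det _).1 (hB j)).ne_zero)
    refine ⟨f, hf, hp, fun y => ?_⟩
    obtain ⟨s, hs⟩ := add p n (Matrix.of (fun (r : Fin n) (c : Fin (p - 1) × Fin n) => B (f c).1 r (f c).2)) hp
      (fun _ i => if i = 0 then 0 else 1) (fun c => by simp) y
    refine ⟨Finset.univ.filter (fun c => s c = 1), fun r => ?_⟩
    rw [← hs r, Finset.sum_filter]
    refine Finset.sum_congr rfl (fun c _ => ?_)
    by_cases h : s c = 1
    · rw [if_pos h]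
      simp [h]
    · have h0 : s c = 0 := by
        rcases Fin.exists_fin_two.1 ⟨s c, rfl⟩ with h' | h'
        · exact h'
        · exact absurd h' h
      rw [if_neg h]
      simp [h0]

end Pool.Agent.Helper95_ABCP.AllPrimes
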